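import Pool.Agent.W744.BU.Stm

set_option autoImplicit false

open Set Filter Topology

namespace Pool.Agent.W199.BU.UP

open Pool.Agent.W744.BU

theorem norm_le_one_of_unitary {B : Type} [CStarAlgebra B] {u : B} (hu : u ∈ unitary B) :
    ‖u‖ ≤ 1 := by
  rcases subsingleton_or_nontrivial B with h | h
  · rw [Subsingleton.elim u 0, norm_zero]; exact zero_le_one
  · exact (CStarRing.norm_of_mem_unitary hu).le

/-- The inclusion of the `n`-th summand. -/
def kap (D : Dat) (n : ℕ) (p : (seqR D n).I × D.G) : (tot D).I × D.G := (⟨n, p.1⟩, p.2)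

theorem kap_inj (D : Dat) (n : ℕ) : Function.Injective (kap D n) := by
  intro p q e
  have e1 : (⟨n, p.1⟩ : Σ n : ℕ, (seqR D n).I) = ⟨n, q.1⟩ := congrArg Prod.fst e
  have e2 : p.2 = q.2 := congrArg (fun z : (tot D).I × D.G => z.2) e
  exact Prod.ext (eq_of_heq (Sigma.mk.inj e1).2) e2

theorem up_aux (D : Dat) (t : unitInterval) (n n' : ℕ) (i : (seqR D n).I) (i' : (seqR D n').I)
    (h h' : D.G)
    (e : (⟨n + 1, ⟨t, (i, h)⟩⟩ : Σ n : ℕ, (seqR D n).I) = ⟨n' + 1, ⟨t, (i', h')⟩⟩) :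
    (⟨n, i⟩ : Σ n : ℕ, (seqR D n).I) = ⟨n', i'⟩ ∧ h = h' := by
  have e2 : n = n' := Nat.succ_injective (congrArg Sigma.fst e)
  subst e2
  have e5 : (⟨t, (i, h)⟩ : Σ _ : unitInterval, (seqR D n).I × D.G) = ⟨t, (i', h')⟩ :=
    eq_of_heq (Sigma.mk.inj e).2
  have e6 : (i, h) = (i', h') := eq_of_heq (Sigma.mk.inj e5).2
  have e7 := Prod.mk.inj e6
  exact ⟨by rw [e7.1], e7.2⟩

theorem up_inj (D : Dat) (t : unitInterval) : Function.Injective (up D t) := by
  intro p q e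
  have := up_aux D t p.1.1 q.1.1 p.1.2 q.1.2 p.2 q.2 e
  exact Prod.ext this.1 this.2

section
variable (hENT : S_ENT) (hTENS : S_TENS) (hCOMP : S_COMP) (hBLK : S_BLK) (hYF : S_YF)
  (hPP : S_PP) (hUN : S_UN)
include hUN hBLK

theorem tot_same (D : Dat) (g : D.G) (n : ℕ) (i j : (seqR D n).I) :
    entry ((tot D).X g) ⟨n, i⟩ ⟨n, j⟩ = entry ((seqR D n).X g) i j :=
  (hBLK ℕ (fun n => (seqR D n).I) (fun n => (seqR D n).X g) 1
    (fun n => norm_le_one_of_unitary ((hUN D).1 n g))).1 n i j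

theorem tot_diff (D : Dat) (g : D.G) (p q : (tot D).I) (h : p.1 ≠ q.1) :
    entry ((tot D).X g) p q = 0 :=
  (hBLK ℕ (fun n => (seqR D n).I) (fun n => (seqR D n).X g) 1
    (fun n => norm_le_one_of_unitary ((hUN D).1 n g))).2.1 p q h

omit hBLK in
include hPP in
theorem good_seq (D : Dat) (n : ℕ) : Good D (UU (seqR D n)) :=
  ((hPP D (seqR D n) ((hUN D).1 n)).2 (Op ((seqR D n).I × D.G))
    (StarAlgHom.id ℂ (Op ((seqR D n).I × D.G))) (UU (seqR D n)) (fun _ => rfl) (fun _ => rfl))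

include hYF hPP in
theorem seq_same (D : Dat) (g : D.G) (n : ℕ) (t : unitInterval) (i j : (seqR D n).I × D.G) :
    entry ((seqR D (n + 1)).X g) ⟨t, i⟩ ⟨t, j⟩ = entry (YF D (t : ℝ) (UU (seqR D n)) g) i j :=
  (hBLK unitInterval (fun _ => (seqR D n).I × D.G)
    (fun t : unitInterval => YF D (t : ℝ) (UU (seqR D n)) g) 1
    (fun t => norm_le_one_of_unitary
      ((hYF D _ (UU (seqR D n)) (good_seq hPP hUN D n) g).2.1 t t.2.1 t.2.2))).1 t i j

include hYF hPP in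
theorem seq_diff (D : Dat) (g : D.G) (n : ℕ) (p q : Σ _ : unitInterval, (seqR D n).I × D.G)
    (h : p.1 ≠ q.1) :
    entry ((seqR D (n + 1)).X g) p q = 0 :=
  (hBLK unitInterval (fun _ => (seqR D n).I × D.G)
    (fun t : unitInterval => YF D (t : ℝ) (UU (seqR D n)) g) 1
    (fun t => norm_le_one_of_unitary
      ((hYF D _ (UU (seqR D n)) (good_seq hPP hUN D n) g).2.1 t t.2.1 t.2.2))).2.1 p q h

omit hUN hBLK in
include hTENS in
theorem UU_entry {G : Type} [Group G] (R : Rep G) (g : G) (p q : R.I × G) :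
    entry (UU R g) p q = entry (R.X g) p.1 q.1 * entry (lam g) p.2 q.2 :=
  (hTENS.1 R.I G (R.X g) (lam g)).1 p.1 p.2 q.1 q.2

include hENT hTENS hCOMP in
theorem comp_UU (D : Dat) (n : ℕ) (g : D.G) :
    comp (kap D n) (UU (tot D) g) = UU (seqR D n) g := by
  refine hENT.1 _ _ _ fun p q => ?_
  rw [(hCOMP _ _ (kap D n) (kap_inj D n)).1, UU_entry hTENS, UU_entry hTENS]
  congr 1
  exact tot_same hBLK hUN D g n p.1 q.1

omit hUN hBLK in
theorem not_range {D : Dat} {n : ℕ} {j : (tot D).I × D.G} (h : j ∉ range (kap D n)) :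
    j.1.1 ≠ n := by
  rintro rfl
  exact h ⟨(j.1.2, j.2), rfl⟩

include hTENS in
theorem red_UU (D : Dat) (n : ℕ) (g : D.G) : Red (kap D n) (UU (tot D) g) := by
  intro j i hj
  have hn := not_range hj
  rw [UU_entry hTENS, UU_entry hTENS]
  constructor
  · rw [tot_diff hBLK hUN D g j.1 (kap D n i).1 hn, zero_mul]
  · rw [tot_diff hBLK hUN D g (kap D n i).1 j.1 (Ne.symm hn), zero_mul]

include hENT hTENS hCOMP hYF hPP in
theorem key (D : Dat) (n : ℕ) (t : unitInterval) (g : D.G) :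
    Red (kap D n) (YF D (t : ℝ) (UU (tot D)) g) ∧
      comp (kap D n) (YF D (t : ℝ) (UU (tot D)) g) = YF D (t : ℝ) (UU (seqR D n)) g := by
  obtain ⟨-, -, R, hRc, hRmem, C, hC⟩ := hCOMP _ _ (kap D n) (kap_inj D n)
  have : IsClosed (R : Set (Op ((tot D).I × D.G))) := hRc
  let u : D.G → R := fun g => ⟨UU (tot D) g, (hRmem _).2 (red_UU hTENS hBLK hUN D n g)⟩
  have hgood : Good D u := (hPP D (tot D) (hUN D).2).2 R R.subtype u (fun _ => rfl) (fun _ => rfl)
  have hnat := (hYF D R u hgood g).2.2.2.1 t t.2.1 t.2.2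
  have h1 := hnat _ R.subtype
  have h2 := hnat _ C
  have e1 : (fun h => R.subtype (u h)) = UU (tot D) := rfl
  have e2 : (fun h => C (u h)) = UU (seqR D n) := by
    funext h
    rw [hC]
    exact comp_UU hENT hTENS hCOMP hBLK hUN D n h
  rw [e1] at h1
  rw [e2, hC] at h2
  have h3 : ((YF D (t : ℝ) u g : R) : Op ((tot D).I × D.G)) = YF D (t : ℝ) (UU (tot D)) g := h1
  rw [h3] at h2
  refine ⟨?_, h2⟩
  rw [← h3]
  exact (hRmem _).1 (YF D (t : ℝ) u g).2

end

theorem main (hENT : S_ENT) (hTENS : S_TENS) (hCOMP : S_COMP) (hBLK : S_BLK) (_hLAM : S_LAM)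
    (hYF : S_YF) (hPP : S_PP) (hUN : S_UN) : S_UP := by
  intro D t g
  constructor
  · rintro ⟨m, x⟩ ⟨⟨n, i⟩, h⟩ hj
    by_cases hm : m = n + 1
    · subst hm
      have ht : x.1 ≠ t := by
        rintro rfl
        exact hj ⟨(⟨n, x.2.1⟩, x.2.2), rfl⟩
      constructor
      · exact (tot_same hBLK hUN D g (n + 1) x ⟨t, (i, h)⟩).trans
          (seq_diff hBLK hYF hPP hUN D g n x ⟨t, (i, h)⟩ ht)
      · exact (tot_same hBLK hUN D g (n + 1) ⟨t, (i, h)⟩ x).trans
          (seq_diff hBLK hYF hPP hUN D g n ⟨t, (i, h)⟩ x (Ne.symm ht))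
    · constructor
      · exact tot_diff hBLK hUN D g _ _ hm
      · exact tot_diff hBLK hUN D g _ _ (Ne.symm hm)
  · refine hENT.1 _ _ _ ?_
    rintro ⟨⟨n, i⟩, h⟩ ⟨⟨n', i'⟩, h'⟩
    rw [(hCOMP _ _ (up D t) (up_inj D t)).1]
    by_cases hn : n = n'
    · subst hn
      have hk := (key hENT hTENS hCOMP hBLK hYF hPP hUN D n t g).2
      have e1 : entry ((tot D).X g) (up D t (⟨n, i⟩, h)) (up D t (⟨n, i'⟩, h')) =
          entry (YF D (t : ℝ) (UU (seqR D n)) g) (i, h) (i', h') :=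
        (tot_same hBLK hUN D g (n + 1) ⟨t, (i, h)⟩ ⟨t, (i', h')⟩).trans
          (seq_same hBLK hYF hPP hUN D g n t (i, h) (i', h'))
      rw [e1, ← hk, (hCOMP _ _ (kap D n) (kap_inj D n)).1]
      rfl
    · have hk := (key hENT hTENS hCOMP hBLK hYF hPP hUN D n' t g).1
      have hr : ((⟨n, i⟩, h) : (tot D).I × D.G) ∉ range (kap D n') := by
        rintro ⟨q, hq⟩
        apply hn
        have := congrArg (fun z : (tot D).I × D.G => z.1.1) hq
        exact this.symm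
      have e1 := (hk (⟨n, i⟩, h) (i', h') hr).1
      have e2 : entry ((tot D).X g) (up D t (⟨n, i⟩, h)) (up D t (⟨n', i'⟩, h')) = 0 :=
        tot_diff hBLK hUN D g _ _ (fun e => hn (Nat.succ_injective e))
      rw [e2]
      exact e1.symm

end Pool.Agent.W199.BU.UP
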